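import Pool.Agent.Helper31.Del.Goals

/-!
# MP_c45da2_co, packet D (handoff 379): common fixed points of commuting isometries
-/

namespace Pool.Agent.Helper3.Del

open Module Pool.Agent.Helper31.Del

variable {V : Type*} [NormedAddCommGroup V] [InnerProductSpace ℝ V]

/-- The fixed points of an affine isometry as an affine subspace. -/
def fixAff (g : V ≃ᵃⁱ[ℝ] V) : AffineSubspace ℝ V where
  carrier := {x | g x = x}
  smul_vsub_vadd_mem' := by
    intro c p₁ p₂ p₃ h₁ h₂ h₃
    have h₁' : g p₁ = p₁ := h₁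
    have h₂' : g p₂ = p₂ := h₂
    have h₃' : g p₃ = p₃ := h₃
    change g (c • (p₁ -ᵥ p₂) +ᵥ p₃) = c • (p₁ -ᵥ p₂) +ᵥ p₃
    rw [AffineIsometryEquiv.map_vadd, map_smul, AffineIsometryEquiv.map_vsub, h₁', h₂', h₃']

lemma mem_fixAff {g : V ≃ᵃⁱ[ℝ] V} {x : V} : x ∈ fixAff g ↔ g x = x := Iff.rfl

/-- The orthogonal projection onto an affine subspace does not increase distances. -/
lemma norm_proj_sub_le (F : AffineSubspace ℝ V) [Nonempty F] [F.direction.HasOrthogonalProjection]
    (c z : V) : ‖(EuclideanGeometry.orthogonalProjection F c : V) -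
      (EuclideanGeometry.orthogonalProjection F z : V)‖ ≤ ‖c - z‖ := by
  obtain ⟨x, hx⟩ := ‹Nonempty F›
  rw [EuclideanGeometry.orthogonalProjection_apply_mem F hx,
    EuclideanGeometry.orthogonalProjection_apply_mem F hx]
  simp only [vadd_eq_add, vsub_eq_sub, add_sub_add_right_eq_sub]
  rw [← Submodule.coe_sub, ← map_sub, sub_sub_sub_cancel_right]
  exact Submodule.norm_orthogonalProjectionOnto_apply_le _ _

/-- The projection of a point is at least as near as every point of the subspace. -/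
lemma norm_proj_self_le (F : AffineSubspace ℝ V) [Nonempty F] [F.direction.HasOrthogonalProjection]
    (z y : V) (hy : y ∈ F) : ‖(EuclideanGeometry.orthogonalProjection F z : V) - z‖ ≤ ‖y - z‖ := by
  have h := EuclideanGeometry.dist_sq_eq_dist_orthogonalProjection_sq_add_dist_orthogonalProjection_sq
    z hy
  rw [dist_eq_norm y z, dist_comm z, dist_eq_norm _ z] at h
  have h0 : 0 ≤ dist y (EuclideanGeometry.orthogonalProjection F z : V) := dist_nonneg
  have h1 := norm_nonneg (y - z)
  have h2 := norm_nonneg ((EuclideanGeometry.orthogonalProjection F z : V) - z)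
  nlinarith

theorem commonFix_aux [FiniteDimensional ℝ V] (𝒢 : Set (V ≃ᵃⁱ[ℝ] V)) (z : V) (D : ℝ)
    (hcomm : ∀ g ∈ 𝒢, ∀ h ∈ 𝒢, ∀ v : V, g (h v) = h (g v))
    (hfix : ∀ g ∈ 𝒢, ∃ c : V, ‖c - z‖ ≤ D ∧ g c = c) (hD : 0 ≤ D) (n : ℕ) :
    ∀ F : AffineSubspace ℝ V, finrank ℝ F.direction ≤ n → (∀ g ∈ 𝒢, ∀ x ∈ F, g x ∈ F) →
      ∀ y ∈ F, ∀ D' : ℝ, ‖y - z‖ ≤ D' → ∃ f ∈ F, ‖f - z‖ ≤ D' + D * n ∧ ∀ g ∈ 𝒢, g f = f := by
  induction n with
  | zero =>
    intro F hF hinv y hy D' hD'
    refine ⟨y, hy, by simpa using hD', fun g hg => ?_⟩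
    have h0 : F.direction = ⊥ := by
      rw [← Submodule.finrank_eq_zero (R := ℝ)]
      omega
    have h1 : g y -ᵥ y ∈ F.direction := F.vsub_mem_direction (hinv g hg y hy) hy
    rw [h0, Submodule.mem_bot, vsub_eq_zero_iff_eq] at h1
    exact h1
  | succ n ih =>
    intro F hF hinv y hy D' hD'
    by_cases hall : ∀ g ∈ 𝒢, ∀ x ∈ F, g x = x
    · refine ⟨y, hy, ?_, fun g hg => hall g hg y hy⟩
      have : 0 ≤ D * ((n + 1 : ℕ) : ℝ) := by positivity
      linarith
    · push Not at hall
      obtain ⟨g, hg, x₀, hx₀, hne⟩ := hall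
      obtain ⟨c, hcz, hgc⟩ := hfix g hg
      have : Nonempty F := ⟨⟨y, hy⟩⟩
      set x : V := (EuclideanGeometry.orthogonalProjection F c : V) with hx
      have hxF : x ∈ F := EuclideanGeometry.orthogonalProjection_mem c
      have hgx : g x = x := by
        have h1 : dist c (EuclideanGeometry.orthogonalProjection F c : V) = dist c (g x) := by
          rw [← hx]
          conv_rhs => rw [← hgc]
          rw [AffineIsometryEquiv.dist_map]
        have h2 := (EuclideanGeometry.dist_orthogonalProjection_eq_dist_iff_eq_of_mem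
          (hinv g hg x hxF)).1 h1
        rw [hx]
        exact h2.symm
      set F' := F ⊓ fixAff g with hF'
      have hxF' : x ∈ F' := ⟨hxF, hgx⟩
      have hlt : F' < F := by
        refine lt_of_le_of_ne inf_le_left ?_
        intro heq
        have : x₀ ∈ F' := by rw [heq]; exact hx₀
        exact hne this.2
      have hdir : F'.direction < F.direction :=
        AffineSubspace.direction_lt_of_nonempty hlt ⟨x, hxF'⟩
      have hfr := Submodule.finrank_lt_finrank_of_lt hdir
      have hinv' : ∀ h ∈ 𝒢, ∀ w ∈ F', h w ∈ F' := by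
        intro h hh w hw
        refine ⟨hinv h hh w hw.1, ?_⟩
        change g (h w) = h w
        have hw2 : g w = w := hw.2
        rw [hcomm g hg h hh, hw2]
      have hb : ‖x - z‖ ≤ D' + D := by
        have h1 := norm_proj_sub_le F c z
        have h2 := norm_proj_self_le F z y hy
        have h3 : x - z = (x - (EuclideanGeometry.orthogonalProjection F z : V)) +
          ((EuclideanGeometry.orthogonalProjection F z : V) - z) := by abel
        rw [h3]
        refine (norm_add_le _ _).trans ?_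
        linarith
      obtain ⟨f, hf, hfz, hfg⟩ := ih F' (by omega) hinv' x hxF' (D' + D) hb
      refine ⟨f, hf.1, hfz.trans (le_of_eq ?_), hfg⟩
      push_cast
      ring

theorem commonFix [FiniteDimensional ℝ V] : CommonFix V := by
  intro 𝒢 z D hD hcomm hfix
  obtain ⟨f, -, hf, hfg⟩ := commonFix_aux 𝒢 z D hcomm hfix hD (finrank ℝ V) ⊤
    (Submodule.finrank_le _) (fun g _ x _ => AffineSubspace.mem_top ℝ V _) z
    (AffineSubspace.mem_top ℝ V z) 0 (by simp)
  refine ⟨f, hf.trans ?_, hfg⟩
  nlinarith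

end Pool.Agent.Helper3.Del
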